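import Pool.Agent.Run7.h672.AE.J
import Pool.Agent.Run7.h672.AE.P

/-!
# `(1 + ξ) e ^ n` is dense modulo one for almost every `ξ` with digits in an arbitrarily sparse set of places

Let `A` be any set of places which contains arbitrarily long runs of consecutive numbers; it may be as sparse as one likes. Choose the
digits of a number `ξ` in base `b` at the places of `A` at random, independently, each of them `0` or `1`, and let the other digits
be `0` (or anything else). Then almost surely `(ρ + ξ) e ^ n + y_n` and `(ρ + ξ) π ^ n + y'_n` visit every interval modulo one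
infinitely often, for any given real number `ρ` (for instance `ρ = 1`) and given sequences `y_n, y'_n`; so numbers whose digits are
those of `1` outside of a very thin set of places have dense orbits. The questions are about the number `1`.

Method: at infinitely many times `n` the scale `b ^ (K_n) ≈ e ^ n` is in the middle of a long run and the leading digits of `e ^ n` are
close to those of `1 / √2`, by the uniform recurrence of the rotation by `log e / log b`. Along these times the sequence is even
equidistributed modulo one: this is an orthogonality argument for the random digits.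

The definitions `num` and `Two` are in `Pool.Agent.Run7.h672.AE.B` and `Pool.Agent.Run7.h672.AE.C`.
-/

set_option autoImplicit false

namespace Pool.Agent.Results.MP_9056e9_nt.DenseForSparseDigits

open Finset MeasureTheory ProbabilityTheory Filter Topology
open Pool.Agent.Run7.h672.AE

/-- the terms of the sequence `x` visit every interval modulo one infinitely often -/
def Visits (x : ℕ → ℝ) : Prop :=
  ∀ s t : ℝ, 0 ≤ s → s < t → t ≤ 1 → {n : ℕ | s ≤ Int.fract (x n) ∧ Int.fract (x n) < t}.Infinite

/-- Let `X_0, X_1, …` be independent random digits in base `b ≥ 2` on a probability space, `η > 0`, and suppose that for every `L`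
there are `L` consecutive places `j` at which two values of `X_j` have probabilities of at least `η`. Let
`ξ = num b X = ∑ X_j b ^ (- j - 1)`.

(1) For all real `ρ` and real sequences `y`, `y'`: almost surely the sequences `(ρ + ξ) e ^ n + y_n` and `(ρ + ξ) π ^ n + y'_n` visit
every interval modulo one infinitely often.

(2) The same for `ξ x_n + y_n`, if `x_n / β ^ n` tends to `c ≠ 0` for a number `β > 1` such that `log β / log b` is irrational. -/
theorem result (b : ℕ) (hb : 2 ≤ b) (Ω : Type) [MeasurableSpace Ω] (P : Measure Ω) [IsProbabilityMeasure P] (X : ℕ → Ω → ℕ)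
    (hX : ∀ j, Measurable (X j)) (hI : iIndepFun X P) (hlt : ∀ j ω, X j ω < b) (η : ℝ) (hη : 0 < η)
    (hrun : ∀ L : ℕ, ∃ a, ∀ j, a ≤ j → j < a + L → Two P X η j) :
    (∀ (ρ : ℝ) (y y' : ℕ → ℝ), ∀ᵐ ω ∂P, Visits (fun n : ℕ => (ρ + num b X ω) * Real.exp n + y n) ∧
      Visits (fun n : ℕ => (ρ + num b X ω) * Real.pi ^ n + y' n)) ∧
    (∀ β c : ℝ, 1 < β → Irrational (Real.log β / Real.log b) → c ≠ 0 →
      ∀ x y : ℕ → ℝ, Tendsto (fun n : ℕ => x n / β ^ n) atTop (𝓝 c) → ∀ᵐ ω ∂P, Visits (fun n => num b X ω * x n + y n)) := by
  have h2 : ∀ β c : ℝ, 1 < β → Irrational (Real.log β / Real.log b) → c ≠ 0 →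
      ∀ x y : ℕ → ℝ, Tendsto (fun n : ℕ => x n / β ^ n) atTop (𝓝 c) → ∀ᵐ ω ∂P, Visits (fun n => num b X ω * x n + y n) := by
    intro β c hβ hirr hc x y hx
    have h3 := dense hb hX hI hlt hη hrun hβ hirr hc x hx y
    filter_upwards [h3] with ω hω
    have e1 : (fun n : ℕ => num b X ω * x n + y n) = (fun n => x n * num b X ω + y n) := by
      funext n
      rw [mul_comm]
    rw [e1]
    exact hω
  refine ⟨fun ρ y y' => ?_, h2⟩
  have he : 1 < Real.exp 1 := Real.one_lt_exp_iff.2 one_pos
  have hpi : 1 < Real.pi := by linarith [Real.pi_gt_three]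
  have h3 := h2 (Real.exp 1) 1 he (irr_of_trans hb he Pool.Agent.H340R2.LW.transcendental_exp_one) one_ne_zero
    (fun n => Real.exp n) (fun n => ρ * Real.exp n + y n) (by
      have e1 : (fun n : ℕ => Real.exp n / Real.exp 1 ^ n) = fun _ => 1 := by
        funext n
        rw [← Real.exp_nat_mul, mul_one]
        exact div_self (Real.exp_pos _).ne'
      rw [e1]
      exact tendsto_const_nhds)
  have h4 := h2 Real.pi 1 hpi (irr_of_trans hb hpi Pool.Agent.H340R2.LW.transcendental_pi) one_ne_zero
    (fun n => Real.pi ^ n) (fun n => ρ * Real.pi ^ n + y' n) (by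
      have e1 : (fun n : ℕ => Real.pi ^ n / Real.pi ^ n) = fun _ => 1 := by
        funext n
        exact div_self (pow_pos Real.pi_pos n).ne'
      rw [e1]
      exact tendsto_const_nhds)
  filter_upwards [h3, h4] with ω hω1 hω2
  have e1 : (fun n : ℕ => (ρ + num b X ω) * Real.exp n + y n) = (fun n : ℕ => num b X ω * Real.exp n + (ρ * Real.exp n + y n)) := by
    funext n
    ring
  have e2 : (fun n : ℕ => (ρ + num b X ω) * Real.pi ^ n + y' n) = (fun n : ℕ => num b X ω * Real.pi ^ n + (ρ * Real.pi ^ n + y' n)) := by
    funext n
    ring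
  rw [e1, e2]
  exact ⟨hω1, hω2⟩

end Pool.Agent.Results.MP_9056e9_nt.DenseForSparseDigits
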