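import Pool.Agent.Run7.h672.AE.J

/-!
# `(ξ e ^ n, ξ π ^ n)` is equidistributed modulo one for almost every number `ξ` of a Cantor set

Let `ξ = ∑ X_j b ^ (- j - 1)` with independent random digits `X_j` in an integer base `b`, none of which needs to be uniformly
distributed: it is enough that two digits have probabilities of at least `η > 0`, and this only at the places outside of a set of
density zero (at the other places the digits may be constant). For instance almost every number of the middle third Cantor set, or
almost every number with the decimal digits `0` and `1` only. Then almost surely the sequences `ξ e ^ n + y_n` and `ξ π ^ n + y'_n`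
are jointly equidistributed modulo one, for any given real numbers `y_n, y'_n` (so `ξ` may be replaced by `ρ + ξ`). For Lebesgue
measure this is classical; the two questions are about `ξ = 1`. The same is true for any finite family of sequences which grow
like `β ^ n` with different real numbers `β > 1` such that `log β / log b` is irrational.

Method: the first digits of `ξ`, up to the place `K_n` with `b ^ (K_n) ≈ e ^ n`, are taken as given; the conditional expectation of
`exp(2 π i h ξ e ^ n)` is then small unless the leading digits of `h e ^ n` are exceptional, and the differences from the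
conditional expectations are orthogonal for distant `n`.

The definitions `num`, `Two` and `Joint` are in `Pool.Agent.Run7.h672.AE.B`, `Pool.Agent.Run7.h672.AE.C` and
`Pool.Agent.Run7.h672.AE.J`.
-/

set_option autoImplicit false

namespace Pool.Agent.Results.MP_9056e9_nt.DilatesFromCantorSets

open Finset MeasureTheory ProbabilityTheory Filter Topology
open Pool.Agent.Run7.h672.AE

open Classical in
/-- Let `X_0, X_1, …` be independent random digits in base `b ≥ 2` on a probability space, `η > 0`, and let the set of the places
`j` at which no two values of `X_j` have probabilities of at least `η` have density zero. Let `ξ = num b X = ∑ X_j b ^ (- j - 1)`.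

(1) For all real sequences `y`, `y'`: almost surely the sequence of the points `(ξ e ^ n + y_n, ξ π ^ n + y'_n)`, `n ≥ 1`, is
equidistributed modulo one in the unit square.

(2) The same for `(ξ x_{n,i} + y_{n,i})_{i < d}`, if `x_{n,i} / β_i ^ n` tends to `c_i ≠ 0` with different numbers `β_i > 1` such that
`log β_i / log b` is irrational. -/
theorem result (b : ℕ) (hb : 2 ≤ b) (Ω : Type) [MeasurableSpace Ω] (P : Measure Ω) [IsProbabilityMeasure P] (X : ℕ → Ω → ℕ)
    (hX : ∀ j, Measurable (X j)) (hI : iIndepFun X P) (hlt : ∀ j ω, X j ω < b) (η : ℝ) (hη : 0 < η)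
    (hE : Tendsto (fun M : ℕ => (((range M).filter (fun j => ¬ Two P X η j)).card : ℝ) / M) atTop (𝓝 0)) :
    (∀ y y' : ℕ → ℝ, ∀ᵐ ω ∂P,
      Joint (fun n : ℕ => ![num b X ω * Real.exp n + y n, num b X ω * Real.pi ^ n + y' n])) ∧
    (∀ (d : ℕ) (β c : Fin d → ℝ), Function.Injective β → (∀ i, 1 < β i ∧ Irrational (Real.log (β i) / Real.log b) ∧ c i ≠ 0) →
      ∀ x y : ℕ → Fin d → ℝ, (∀ i, Tendsto (fun n : ℕ => x n i / β i ^ n) atTop (𝓝 (c i))) →
      ∀ᵐ ω ∂P, Joint (fun n i => num b X ω * x n i + y n i)) := by
  have hE' : ∀ ε : ℝ, 0 < ε → ∀ᶠ M : ℕ in atTop, (((range M).filter (fun j => ¬ Two P X η j)).card : ℝ) ≤ ε * M := by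
    intro ε hε
    filter_upwards [hE.eventually_lt_const hε, eventually_ge_atTop 1] with M hM hM1
    have h0 : (0 : ℝ) < M := by exact_mod_cast hM1
    rw [div_lt_iff₀ h0] at hM
    exact hM.le
  have h2 : ∀ (d : ℕ) (β c : Fin d → ℝ), Function.Injective β → (∀ i, 1 < β i ∧ Irrational (Real.log (β i) / Real.log b) ∧ c i ≠ 0) →
      ∀ x y : ℕ → Fin d → ℝ, (∀ i, Tendsto (fun n : ℕ => x n i / β i ^ n) atTop (𝓝 (c i))) →
      ∀ᵐ ω ∂P, Joint (fun n i => num b X ω * x n i + y n i) := by
    intro d β c hinj hβ x y hx
    have h3 := joint hb hX hI hlt hη hE' β c (fun i => (hβ i).1) hinj (fun i => (hβ i).2.1) (fun i => (hβ i).2.2) x hx y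
    filter_upwards [h3] with ω hω
    have e1 : (fun (n : ℕ) (i : Fin d) => num b X ω * x n i + y n i) = (fun n i => x n i * num b X ω + y n i) := by
      funext n i
      rw [mul_comm]
    rw [e1]
    exact hω
  refine ⟨fun y y' => ?_, h2⟩
  have he : 1 < Real.exp 1 := Real.one_lt_exp_iff.2 one_pos
  have hpi : 1 < Real.pi := by linarith [Real.pi_gt_three]
  have hep : Real.exp 1 ≠ Real.pi := by
    have h3 := Real.exp_one_lt_d9
    have h4 := Real.pi_gt_three
    intro h
    linarith
  have h3 := h2 2 ![Real.exp 1, Real.pi] ![1, 1] (by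
      intro i j hij
      fin_cases i <;> fin_cases j
      · rfl
      · exact absurd hij hep
      · exact absurd hij.symm hep
      · rfl) (by
      intro i
      fin_cases i
      · exact ⟨he, irr_of_trans hb he Pool.Agent.H340R2.LW.transcendental_exp_one, one_ne_zero⟩
      · exact ⟨hpi, irr_of_trans hb hpi Pool.Agent.H340R2.LW.transcendental_pi, one_ne_zero⟩)
    (fun n => ![Real.exp n, Real.pi ^ n]) (fun n => ![y n, y' n]) (by
      intro i
      fin_cases i
      · show Tendsto (fun n : ℕ => Real.exp n / Real.exp 1 ^ n) atTop (𝓝 1)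
        have e1 : (fun n : ℕ => Real.exp n / Real.exp 1 ^ n) = fun _ => 1 := by
          funext n
          rw [← Real.exp_nat_mul, mul_one]
          exact div_self (Real.exp_pos _).ne'
        rw [e1]
        exact tendsto_const_nhds
      · show Tendsto (fun n : ℕ => Real.pi ^ n / Real.pi ^ n) atTop (𝓝 1)
        have e1 : (fun n : ℕ => Real.pi ^ n / Real.pi ^ n) = fun _ => 1 := by
          funext n
          exact div_self (pow_pos Real.pi_pos n).ne'
        rw [e1]
        exact tendsto_const_nhds)
  filter_upwards [h3] with ω hω
  have e1 : (fun n : ℕ => ![num b X ω * Real.exp n + y n, num b X ω * Real.pi ^ n + y' n]) =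
      (fun (n : ℕ) (i : Fin 2) => num b X ω * (![Real.exp n, Real.pi ^ n] : Fin 2 → ℝ) i + (![y n, y' n] : Fin 2 → ℝ) i) := by
    funext n i
    fin_cases i <;> rfl
  rw [e1]
  exact hω

end Pool.Agent.Results.MP_9056e9_nt.DilatesFromCantorSets
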