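import Pool.Agent.Run7.h672.EX.D
import Pool.Agent.Run7.h672.CC.H

/-!
# Equidistribution modulo one of `v (ξ e ^ n + P(n)) + y_n` for random integers `v` of few digits written by random words

For the factor `v = 1`, `ξ = 1`, `P = 0`, `y = 0` this would be the question. Here `v` is a random integer of `k` digits, where
`k` is only required to be larger than a constant times `N` (so `v` may be much smaller than `e ^ N`, `v ≤ e ^ (ε N)`), and
its law may be carried by a very thin set of integers: the digits of `v` in a base `b` are written by independent random words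
of an arbitrary language. For instance the decimal digits of `v` may be independent and equal to `0` or `1`, or `v` may be the sum of
the powers `10 ^ j`, `j` in a random set given by a renewal process. Uniformly in the real number `ξ`, `1 ≤ |ξ| ≤ e ^ k`, the real
polynomial `P` of bounded degree and the real numbers `y_n` the first `N` terms have a discrepancy of at most
`exp (- c (log N) ^ (1 / 3))` with a probability of at least `1 - exp (- c (log N) ^ (1 / 3))`.

The definitions `len`, `Words`, `cat`, `noRest`, `cutWord`, `WordLaw` are in `Pool.Agent.Run7.h672.CC.Defs`, the definitions `cnt`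
and `Equi` in `Pool.Agent.Run7.h672.EX.D`.

Method: the second moment is a sum over pairs `n, m` of the characteristic function of `v` at
`θ = h (ξ (e ^ n - e ^ m) + P(n) - P(m))`. For a parameter `R` and for all but few `n` the number `θ b ^ (i l)` is not too close
to an integer, for all the `R` scales `i < R`, `l = ⌊k / R⌋`: this is the starting file
`Pool.Agent.Results.MP_9056e9_nt.AlmostAllExponents` (Padé approximations), with the number `h ξ b ^ (i l)` in the place of `a`.
Therefore the expansion of `θ` in base `b` has at least `R` places at which it is not close to an integer, and the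
characteristic function is smaller than `γ ^ (R / A)` (`Pool.Agent.Run7.h672.CC`: a strong renewal theorem, and exchanges of two
words which do not commute). With `R = (log N) ^ (1 / 3)` both losses are balanced.
-/

set_option autoImplicit false

namespace Pool.Agent.Results.MP_9056e9_nt.RandomWordDilates

open Finset
open Pool.Agent.Run7.h672.CC
open Pool.Agent.Run7.h672.EX

open Classical in
/-- Let `W` be the law of a random word in base `b` (`Words b W`: any language, finite or infinite, lengths with an exponential
moment and without a common divisor, and two words which do not commute), `D` a degree and `A₀ > 0`. There is `c > 0` such that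
the following holds for all large `N` and all `k` with `N ≤ A₀ k`. Let `v < b ^ k` be the random integer whose digits are
written by independent random words with the law `W`, conditioned on the total length `k`, or cut after `k` digits
(`WordLaw b W k p`). Then for all real `ξ` with `1 ≤ |ξ| ≤ e ^ k`, all real polynomials `P` of degree at most `D` and all real
numbers `y n`: with a probability of at least `1 - exp (- c (log N) ^ (1 / 3))` the first `N` terms of the sequence
`v (ξ e ^ n + P(n)) + y n` are equidistributed modulo one with discrepancy at most `exp (- c (log N) ^ (1 / 3))`, that is, the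
number of the `n ≤ N` with fractional part in `[α, β)` differs from `(β - α) N` by at most `N exp (- c (log N) ^ (1 / 3))`,
for all `0 ≤ α < β ≤ 1`. -/
theorem result (b : ℕ) (W : ℕ → ℕ → ℝ) (hW : Words b W) (D : ℕ) (A₀ : ℝ) (hA₀ : 0 < A₀) :
    ∃ (c : ℝ) (N₀ : ℕ), 0 < c ∧ ∀ N : ℕ, N₀ ≤ N → ∀ k : ℕ, (N : ℝ) ≤ A₀ * k → ∀ p : ℕ → ℝ, WordLaw b W k p →
    ∀ (ξ : ℝ) (P : Polynomial ℝ), 1 ≤ |ξ| → |ξ| ≤ Real.exp k → P.natDegree ≤ D → ∀ y : ℕ → ℝ,
    ∑ v ∈ range (b ^ k), (if Equi (fun n => v * (ξ * Real.exp n + P.eval (n : ℝ)) + y n) N
      (Real.exp (-(c * Real.log N ^ ((1 : ℝ) / 3)))) then 0 else p v) ≤ Real.exp (-(c * Real.log N ^ ((1 : ℝ) / 3))) := by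
  obtain ⟨F, A, γ, hF, hγ0, hγ1, hdec⟩ := word_decays hW
  obtain ⟨c, N₀, hc, h⟩ := disc D b F A hW.two hF γ hγ0 hγ1 A₀ hA₀
  exact ⟨c, N₀, hc, fun N hN k hk p hp ξ P h1 h2 h3 y => h N hN k hk p (hdec k p hp 1 0) ξ P h1 h2 h3 y⟩

end Pool.Agent.Results.MP_9056e9_nt.RandomWordDilates
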