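import Pool.Agent.Run7.h724.ThirdsCrit

/-!
# The sequence `e^n` and the first third of the unit interval

The sequence `e^n` is equidistributed modulo one if and only if for every nonzero integer `m` one third
of the numbers `m e^n` have a fractional part less than `1/3`. The same holds for `π^n`, for
`(3/2)^n` and for the powers of every real number greater than one none of whose powers is an integer.
With `1/2` instead of `1/3` there is no such criterion for arbitrary sequences of irrational
numbers (an example is given in `MP_f2f914_nt.MultiplesSimplyNormal`). In the quantitative form the discrepancy of an arbitrary finite sequence is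
bounded by the first digits of its multiples, in any base `b ≥ 3`, like in the inequality of Erdős and
Turán, but without exponential sums.

Proof. By the engine of `Pool.Agent.Run7.h776.MS` (an expansion of `e(y)` into dilates of two step
functions with uniform convergence, based on the theorem of Davenport on `∑ μ(n) e(n α)`) the
exponential sums of the sequence are bounded by the numbers of the first digits of the multiples. An
Erdős–Turán inequality with cut-off `√M` gives the number of visits, and the weight of the multiple `m`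
becomes `∑_{h j = m} 1 / (h j) = τ(m) / m`.
-/

set_option autoImplicit false

open Filter Topology

namespace Pool.Agent.Results.MP_9056e9_nt.ThirdsOfMultiples

/-- the number of the integers `1 ≤ n ≤ N` for which the fractional part of `u n` lies in `[a, b)` -/
noncomputable def visits (u : ℕ → ℝ) (a b : ℝ) (N : ℕ) : ℕ :=
  ((Finset.Icc 1 N).filter fun n : ℕ => a ≤ Int.fract (u n) ∧ Int.fract (u n) < b).card

/-- the sequence `u 1, u 2, …` is equidistributed modulo one -/
def Equidistributed (u : ℕ → ℝ) : Prop := ∀ a b : ℝ, 0 ≤ a → a < b → b ≤ 1 →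
  Tendsto (fun N : ℕ => (visits u a b N : ℝ) / (N : ℝ)) atTop (𝓝 (b - a))

/-- for every nonzero integer `m`, the proportion of the `n ≤ N` for which the fractional part of
`m * u n` is less than `1 / 3` tends to `1 / 3` -/
def ThirdsProperty (u : ℕ → ℝ) : Prop := ∀ m : ℤ, m ≠ 0 →
  Tendsto (fun N : ℕ => (visits (fun n => (m : ℝ) * u n) 0 (1 / 3) N : ℝ) / (N : ℝ)) atTop
    (𝓝 (1 / 3))

/-- (1) The sequence `e^n` is equidistributed modulo one if and only if for every nonzero integer `m`
one third of the numbers `m e^n` have a fractional part less than `1/3`. (2) The same for `π^n`.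
(3) The same for the powers of every real number `θ > 1` none of whose powers is an integer, for
instance `θ = 3/2`. (4) The quantitative form, for arbitrary sequences: for every `b ≥ 3` and `A` there
is `C` such that for all real numbers `u_1, …, u_N`, all `0 ≤ α < β ≤ 1` and all `M ≥ 2` the number of
the `n ≤ N` with `α ≤ {u_n} < β` differs from `(β - α) N` by at most
`C (N / (log M)^A + ∑_{m ≤ M} (τ(m) / m) D_m)`, where `τ(m)` is the number of divisors of `m` and
`D_m` is the sum over the digits `d < b` of the distances between the number of the `n ≤ N` with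
`d / b ≤ {m u_n} < (d + 1) / b` and `N / b`. -/
theorem result :
    (Equidistributed (fun n => Real.exp 1 ^ n) ↔ ThirdsProperty (fun n => Real.exp 1 ^ n)) ∧
    (Equidistributed (fun n => Real.pi ^ n) ↔ ThirdsProperty (fun n => Real.pi ^ n)) ∧
    (∀ θ : ℝ, 1 < θ → (∀ k : ℕ, 1 ≤ k → ∀ j : ℤ, θ ^ k ≠ j) →
      (Equidistributed (fun n => θ ^ n) ↔ ThirdsProperty (fun n => θ ^ n))) ∧
    (∀ b : ℕ, 3 ≤ b → ∀ A : ℕ, ∃ C : ℝ, ∀ (u : ℕ → ℝ) (N M : ℕ), 2 ≤ M → ∀ α β : ℝ,
      0 ≤ α → α < β → β ≤ 1 →
      |(visits u α β N : ℝ) - (β - α) * N| ≤ C * (N / Real.log M ^ A +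
        ∑ m ∈ Finset.Icc 1 M, (m.divisors.card : ℝ) / m *
          ∑ d ∈ Finset.range b,
            |(visits (fun n => (m : ℝ) * u n) ((d : ℝ) / b) (((d : ℝ) + 1) / b) N : ℝ) - N / b|)) := by
  have h3 : ∀ θ : ℝ, 1 < θ → (∀ k : ℕ, 1 ≤ k → ∀ j : ℤ, θ ^ k ≠ j) →
      (Equidistributed (fun n => θ ^ n) ↔ ThirdsProperty (fun n => θ ^ n)) :=
    fun θ hθ hint => Pool.Agent.Run7.h724.Thirds.powers θ hθ hint
  refine ⟨?_, ?_, h3, fun b hb A => ?_⟩
  · exact h3 _ (by
      have := Real.exp_one_gt_d9
      linarith) (Pool.Agent.Run7.h724.Thirds.transcendental_no_int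
        Pool.Agent.H340R2.LW.transcendental_exp_one)
  · exact h3 _ (by
      have := Real.pi_gt_three
      linarith) (Pool.Agent.Run7.h724.Thirds.transcendental_no_int
        Pool.Agent.H340R2.LW.transcendental_pi)
  · obtain ⟨C, _, hC⟩ := Pool.Agent.Run7.h724.Thirds.disc hb A
    refine ⟨C, fun u N M hM α β hα hαβ hβ => ?_⟩
    have h := hC M hM N (fun n => u (n + 1)) α β hα hαβ hβ
    have hv : ∀ (w : ℕ → ℝ) (s t : ℝ), visits w s t N =
        Pool.Agent.Run7.h724.Thirds.vis (fun n => w (n + 1)) s t N :=
      fun w s t => Pool.Agent.Run7.h724.Thirds.visits_eq w s t N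
    simp only [hv]
    unfold Pool.Agent.Run7.h776.MS.dev at h
    simp only [Pool.Agent.Run7.h776.MS.cnt_eq (by omega : 0 < b)] at h
    exact h

end Pool.Agent.Results.MP_9056e9_nt.ThirdsOfMultiples
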